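import Pool.Agent.Helper29.SF.Circ5
import Pool.Agent.Helper59.HD.Contr
import Pool.Agent.Helper59.HD.Fam

/-!
# No circuits of size three modulo the span of a circuit of size five (MP_541d70_co)
-/

namespace Pool.Agent.Helper75.SF

open Pool.Agent.Helper59.HD Pool.Agent.Helper59.HD5 Pool.Agent.Helper29.SF

variable {V : Type} [AddCommGroup V] [Module ℝ V]

/-- A combination of the elements of a circuit of size three, not a multiple of the circuit: it can
be changed to a combination of exactly two of the elements. -/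
theorem two_of {L : Submodule ℝ V} {k : V →₀ ℝ} (h3 : k.support.card = 3)
    (a : V →₀ ℝ) (ha : ∀ y, k y = 0 → a y = 0) (hne : ∀ t : ℝ, a ≠ t • k) (_ : Circ L k) :
    ∃ i j l : V, k i ≠ 0 ∧ k j ≠ 0 ∧ k l ≠ 0 ∧ j ≠ l ∧ ∃ t : ℝ, (a - t • k) i = 0 ∧
      (a - t • k) j ≠ 0 ∧ (a - t • k) l ≠ 0 ∧ ∀ y, y ≠ j → y ≠ l → (a - t • k) y = 0 := by
  classical
  obtain ⟨p, q, r, hpq, hpr, hqr, hs⟩ := Finset.card_eq_three.1 h3
  have hk : ∀ y, k y ≠ 0 ↔ (y = p ∨ y = q ∨ y = r) := by
    intro y
    rw [← Finsupp.mem_support_iff, hs]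
    simp
  have hp : k p ≠ 0 := (hk p).2 (Or.inl rfl)
  have hq : k q ≠ 0 := (hk q).2 (Or.inr (Or.inl rfl))
  have hr : k r ≠ 0 := (hk r).2 (Or.inr (Or.inr rfl))
  have key : ∀ i j l : V, k i ≠ 0 → k j ≠ 0 → k l ≠ 0 → j ≠ l →
      (∀ y, k y ≠ 0 → y = i ∨ y = j ∨ y = l) →
      a j / k j ≠ a i / k i → a l / k l ≠ a i / k i →
      ∃ t : ℝ, (a - t • k) i = 0 ∧
      (a - t • k) j ≠ 0 ∧ (a - t • k) l ≠ 0 ∧ ∀ y, y ≠ j → y ≠ l → (a - t • k) y = 0 := by
    intro i j l hi hj hl hjl hall h1 h2
    refine ⟨a i / k i, ?_, ?_, ?_, ?_⟩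
    · simp only [Finsupp.coe_sub, Finsupp.coe_smul, Pi.sub_apply, Pi.smul_apply, smul_eq_mul]
      field_simp
      ring
    · simp only [Finsupp.coe_sub, Finsupp.coe_smul, Pi.sub_apply, Pi.smul_apply, smul_eq_mul]
      intro h0
      apply h1
      rw [div_eq_iff hj]
      linarith
    · simp only [Finsupp.coe_sub, Finsupp.coe_smul, Pi.sub_apply, Pi.smul_apply, smul_eq_mul]
      intro h0
      apply h2
      rw [div_eq_iff hl]
      linarith
    · intro y hyj hyl
      simp only [Finsupp.coe_sub, Finsupp.coe_smul, Pi.sub_apply, Pi.smul_apply, smul_eq_mul]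
      by_cases hy : k y = 0
      · rw [ha y hy, hy, mul_zero, sub_zero]
      · rcases hall y hy with rfl | h | h
        · field_simp
          ring
        · exact absurd h hyj
        · exact absurd h hyl
  by_cases h1 : a p / k p = a q / k q
  · have h2 : a r / k r ≠ a p / k p := by
      intro h2
      apply hne (a p / k p)
      ext y
      rw [Finsupp.smul_apply, smul_eq_mul]
      by_cases hy : k y = 0
      · rw [ha y hy, hy, mul_zero]
      · rcases (hk y).1 hy with rfl | rfl | rfl
        · field_simp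
        · rw [h1]
          field_simp
        · rw [← h2]
          field_simp
    refine ⟨r, p, q, hr, hp, hq, hpq, key r p q hr hp hq hpq (fun y hy => ?_) h2.symm ?_⟩
    · rcases (hk y).1 hy with h | h | h
      · exact Or.inr (Or.inl h)
      · exact Or.inr (Or.inr h)
      · exact Or.inl h
    · rw [← h1]
      exact h2.symm
  · by_cases h2 : a r / k r = a p / k p
    · refine ⟨q, p, r, hq, hp, hr, hpr, key q p r hq hp hr hpr (fun y hy => ?_) h1 ?_⟩
      · rcases (hk y).1 hy with h | h | h
        · exact Or.inr (Or.inl h)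
        · exact Or.inl h
        · exact Or.inr (Or.inr h)
      · rw [h2]
        exact h1
    · exact ⟨p, q, r, hp, hq, hr, hqr, key p q r hp hq hr hqr (fun y hy => (hk y).1 hy)
        (fun h => h1 h.symm) h2⟩

/-- A circuit of size three modulo `L` is an exact relation. -/
theorem exact_three {S : Set V} {L : Submodule ℝ V}
    {c : Fin 5 → V} (h : Quint S L c)
    (hlift : ∀ {κ : Type} [Fintype κ] (f : κ → V) (_ : ∀ k, f k ∈ Gs S) (α : κ → ℝ)
      (_ : ∀ k, α k ≠ 0) (_ : ∀ y : κ → ℝ, ∑ k, y k • f k ∈ L → ∃ t : ℝ, y = t • α)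
      (x : Fin 5 → ℝ) (_ : ∑ k, α k • f k = ∑ i, x i • c i) (j : Fin 5),
      Fintype.card κ ≤ (Finset.univ.filter (fun i => x i = x j)).card)
    {k : V →₀ ℝ} (hk : Circ L k) (hkS : ∀ y, k y ≠ 0 → y ∈ S) (h3 : k.support.card = 3) :
    sm k = 0 := by
  classical
  obtain ⟨x, hx⟩ := h.span _ hk.2.1
  have hsm : sm k = ∑ y : {y // y ∈ k.support}, k y.1 • y.1 := by
    unfold sm
    rw [Finsupp.linearCombination_apply, Finsupp.sum,
      ← Finset.sum_coe_sort k.support (fun y => k y • id y)]
    rfl
  have hinj : Function.Injective (fun y : {y // y ∈ k.support} => y.1) :=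
    Subtype.val_injective
  have hl : ∀ j : Fin 5, 3 ≤ (Finset.univ.filter (fun i => x i = x j)).card := by
    intro j
    have h1 := hlift (κ := {y // y ∈ k.support}) (fun y => y.1)
      (fun y => Gs.of (hkS y.1 (Finsupp.mem_support_iff.1 y.2))) (fun y => k y.1)
      (fun y => Finsupp.mem_support_iff.1 y.2) (by
        intro y hy
        rw [← sm_fc] at hy
        obtain ⟨t, ht⟩ := hk.2.2 _ hy (supp_sub_iff.2 (fun u hu => fc_out _ _ u (fun i hi => by
          have := Finsupp.mem_support_iff.1 i.2
          rw [hi] at this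
          exact this hu)))
        refine ⟨t, ?_⟩
        funext i
        rw [← fc_val hinj y i, ht]
        rfl) x (by rw [← hsm]; exact hx) j
    rw [Fintype.card_coe, h3] at h1
    exact h1
  have hconst : ∀ j, x j = x 0 := by
    intro j
    by_contra hne
    have hd : Disjoint (Finset.univ.filter (fun i => x i = x j))
        (Finset.univ.filter (fun i => x i = x 0)) := by
      rw [Finset.disjoint_left]
      intro i hi hi'
      rw [Finset.mem_filter] at hi hi'
      exact hne (hi.2.symm.trans hi'.2)
    have h1 := Finset.card_le_univ ((Finset.univ.filter (fun i => x i = x j)) ∪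
        (Finset.univ.filter (fun i => x i = x 0)))
    rw [Finset.card_union_of_disjoint hd, Fintype.card_fin] at h1
    have h2 := hl j
    have h4 := hl 0
    omega
  rw [hx]
  have h1 : ∑ i, x i • c i = x 0 • ∑ i, c i := by
    rw [Finset.smul_sum]
    exact Finset.sum_congr rfl (fun i _ => by rw [hconst i])
  rw [h1, h.sum, smul_zero]

/-- An element of `S` in `M + L` is in `M` or in `L`, for the span `M` of a circuit of size
three. -/
theorem mem_of_sup {S : Set V} {L : Submodule ℝ V}
    (hex : ∀ k, Circ L k → (∀ y, k y ≠ 0 → y ∈ S) → k.support.card = 3 → sm k = 0)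
    {k : V →₀ ℝ} (hk : Circ L k) (hkS : ∀ y, k y ≠ 0 → y ∈ S) (h3 : k.support.card = 3)
    {f : V} (hf : f ∈ S) (hfL : f ∉ L) (hfM : f ∈ spn {y | k y ≠ 0} ⊔ L) :
    f ∈ spn {y | k y ≠ 0} := by
  classical
  by_cases hkf : k f ≠ 0
  · exact subset_spn hkf
  push Not at hkf
  obtain ⟨m, hm, l, hl, hml⟩ := Submodule.mem_sup.1 hfM
  obtain ⟨a, ha, rfl⟩ := mem_spn.1 hm
  have hsk := hex k hk hkS h3
  obtain ⟨i, j, l', hi, hj, hl', hjl, t, hbi, hbj, hbl, hb⟩ := two_of (L := L) h3 a
    (fun y hy => by
      by_contra hne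
      exact ha y hne hy)
    (fun t ht => by
      apply hfL
      rw [← hml, ht, map_smul, hsk, smul_zero, zero_add]
      exact hl) hk
  set b : V →₀ ℝ := a - t • k with hbdef
  have hsb : sm b = sm a := by
    rw [hbdef, map_sub, map_smul, hsk, smul_zero, sub_zero]
  have hfi : f ≠ i := by
    rintro rfl
    exact hi hkf
  have hfj : f ≠ j := by
    rintro rfl
    exact hj hkf
  have hfl : f ≠ l' := by
    rintro rfl
    exact hl' hkf
  set g : V →₀ ℝ := Finsupp.single f 1 - b with hg
  have hgf : g f = 1 := by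
    rw [hg, Finsupp.sub_apply, Finsupp.single_eq_same, hb f hfj hfl, sub_zero]
  have hgo : ∀ y, y ≠ f → g y = - b y := by
    intro y hy
    rw [hg, Finsupp.sub_apply, Finsupp.single_apply, if_neg (fun h => hy h.symm), zero_sub]
  have hgsupp : g.support = {f, j, l'} := by
    ext y
    rw [Finsupp.mem_support_iff, Finset.mem_insert, Finset.mem_insert, Finset.mem_singleton]
    constructor
    · intro hy
      by_contra hcon
      push Not at hcon
      apply hy
      rw [hgo y hcon.1, hb y hcon.2.1 hcon.2.2, neg_zero]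
    · rintro (rfl | rfl | rfl)
      · rw [hgf]
        exact one_ne_zero
      · rw [hgo _ hfj.symm]
        exact neg_ne_zero.2 hbj
      · rw [hgo _ hfl.symm]
        exact neg_ne_zero.2 hbl
  have hgL : sm g ∈ L := by
    rw [hg, map_sub, sm_single, one_smul, hsb, ← hml]
    have : sm a + l - sm a = l := by abel
    rw [this]
    exact hl
  have hij : i ≠ j := by
    rintro rfl
    exact hbj hbi
  have hil : i ≠ l' := by
    rintro rfl
    exact hbl hbi
  have hgc : Circ L g := by
    refine ⟨?_, hgL, ?_⟩
    · intro h0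
      rw [h0] at hgf
      exact zero_ne_one hgf
    · intro h hh hsub
      rw [supp_sub_iff] at hsub
      refine ⟨h f, ?_⟩
      set d : V →₀ ℝ := h - h f • g with hd
      have hdf : d f = 0 := by
        rw [hd, Finsupp.sub_apply, Finsupp.smul_apply, hgf, smul_eq_mul, mul_one, sub_self]
      have hd0 : ∀ y, y ≠ j → y ≠ l' → d y = 0 := by
        intro y hyj hyl
        by_cases hyf : y = f
        · rw [hyf]
          exact hdf
        · have h1 : g y = 0 := by rw [hgo y hyf, hb y hyj hyl, neg_zero]
          rw [hd, Finsupp.sub_apply, Finsupp.smul_apply, h1, hsub y h1, smul_zero, sub_zero]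
      obtain ⟨s, hs⟩ := hk.2.2 d (by
        rw [hd, map_sub, map_smul]
        exact L.sub_mem hh (L.smul_mem _ hgL)) (supp_sub_iff.2 (fun y hy => by
          apply hd0
          · rintro rfl
            exact hj hy
          · rintro rfl
            exact hl' hy))
      have hs0 : s = 0 := by
        have h1 := hd0 i hij hil
        rw [hs, Finsupp.smul_apply, smul_eq_mul] at h1
        rcases mul_eq_zero.1 h1 with h | h
        · exact h
        · exact absurd h hi
      have hdz : d = 0 := by rw [hs, hs0, zero_smul]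
      exact sub_eq_zero.1 hdz
  have hg0 := hex g hgc (fun y hy => by
    have h1 := Finsupp.mem_support_iff.2 hy
    rw [hgsupp, Finset.mem_insert, Finset.mem_insert, Finset.mem_singleton] at h1
    rcases h1 with rfl | rfl | rfl
    · exact hf
    · exact hkS _ hj
    · exact hkS _ hl') (by
      rw [hgsupp, Finset.card_insert_of_notMem, Finset.card_insert_of_notMem,
        Finset.card_singleton]
      · rw [Finset.mem_singleton]
        exact hjl
      · rw [Finset.mem_insert, Finset.mem_singleton, not_or]
        exact ⟨hfj, hfl⟩)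
  rw [hg, map_sub, sm_single, one_smul, hsb] at hg0
  rw [sub_eq_zero.1 hg0]
  exact hm

/-- Every circuit modulo `L` lies in the span of a circuit of size three or misses it. -/
theorem in_or_out {S : Set V} {L : Submodule ℝ V}
    (hc3 : ∀ k, Circ L k → (∀ y, k y ≠ 0 → y ∈ S) → k.support.card ≤ 3)
    (hex : ∀ k, Circ L k → (∀ y, k y ≠ 0 → y ∈ S) → k.support.card = 3 → sm k = 0)
    {k : V →₀ ℝ} (hk : Circ L k) (hkS : ∀ y, k y ≠ 0 → y ∈ S) (h3 : k.support.card = 3)
    (k0 : V →₀ ℝ) (hk0 : Circ L k0) (hk0S : ∀ y, k0 y ≠ 0 → y ∈ S) :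
    (∀ y, k0 y ≠ 0 → y ∈ spn {y | k y ≠ 0}) ∨ (∀ y, k0 y ≠ 0 → y ∉ spn {y | k y ≠ 0}) := by
  classical
  set M : Submodule ℝ V := spn {y | k y ≠ 0} with hM
  by_contra hcon
  push Not at hcon
  obtain ⟨⟨z, hz, hzM⟩, ⟨y, hy, hyM⟩⟩ := hcon
  have hyz : y ≠ z := by
    rintro rfl
    exact hzM hyM
  have hys : y ∈ k0.support := Finsupp.mem_support_iff.2 hy
  have hzs : z ∈ k0.support := Finsupp.mem_support_iff.2 hz
  have hsub2 : ({y, z} : Finset V) ⊆ k0.support := by
    intro u hu
    rw [Finset.mem_insert, Finset.mem_singleton] at hu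
    rcases hu with rfl | rfl
    · exact hys
    · exact hzs
  have hcard2 : ({y, z} : Finset V).card = 2 := Finset.card_pair hyz
  have h2 : 2 ≤ k0.support.card := by
    rw [← hcard2]
    exact Finset.card_le_card hsub2
  have hzL : z ∉ L := nonloop hk0 h2 hz
  have hyL : y ∉ L := nonloop hk0 h2 hy
  have hzML : z ∉ M ⊔ L := fun h => hzM (mem_of_sup hex hk hkS h3 (hk0S z hz) hzL h)
  have hle := hc3 k0 hk0 hk0S
  -- the third element
  have hex3 : ∃ w, k0 w ≠ 0 ∧ w ≠ y ∧ w ≠ z := by
    by_contra hno
    push Not at hno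
    apply hzML
    have h4 : sm k0 = k0 y • y + k0 z • z := by
      have h5 : k0 = Finsupp.single y (k0 y) + Finsupp.single z (k0 z) := by
        ext u
        rw [Finsupp.add_apply, Finsupp.single_apply, Finsupp.single_apply]
        by_cases hu : y = u
        · subst hu
          rw [if_pos rfl, if_neg (Ne.symm hyz), add_zero]
        · rw [if_neg hu, zero_add]
          by_cases hu' : z = u
          · subst hu'
            rw [if_pos rfl]
          · rw [if_neg hu']
            by_contra hne
            exact hu' (hno u hne (fun h => hu h.symm)).symm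
      conv_lhs => rw [h5]
      rw [map_add, sm_single, sm_single]
    have h6 : k0 z • z ∈ M ⊔ L := by
      have h7 : k0 z • z = - (k0 y • y) + sm k0 := by rw [h4]; abel
      rw [h7]
      exact Submodule.add_mem_sup (M.neg_mem (M.smul_mem _ hyM)) hk0.2.1
    have h8 : z = (k0 z)⁻¹ • (k0 z • z) := by
      rw [smul_smul, inv_mul_cancel₀ hz, one_smul]
    rw [h8]
    exact Submodule.smul_mem _ _ h6
  obtain ⟨w, hw, hwy, hwz⟩ := hex3
  have hsub3 : ({y, z, w} : Finset V) ⊆ k0.support := by
    intro u hu
    rw [Finset.mem_insert, Finset.mem_insert, Finset.mem_singleton] at hu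
    rcases hu with rfl | rfl | rfl
    · exact hys
    · exact hzs
    · exact Finsupp.mem_support_iff.2 hw
  have hcard3 : ({y, z, w} : Finset V).card = 3 := by
    rw [Finset.card_insert_of_notMem, Finset.card_pair (Ne.symm hwz)]
    rw [Finset.mem_insert, Finset.mem_singleton, not_or]
    exact ⟨hyz, Ne.symm hwy⟩
  have hsupp : k0.support = {y, z, w} := by
    symm
    apply Finset.eq_of_subset_of_card_le hsub3
    rw [hcard3]
    exact hle
  have hk03 : k0.support.card = 3 := by rw [hsupp, hcard3]
  have hk0out : ∀ u, u ≠ y → u ≠ z → u ≠ w → k0 u = 0 := by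
    intro u h4 h5 h6
    by_contra hne
    have h7 := Finsupp.mem_support_iff.2 hne
    rw [hsupp, Finset.mem_insert, Finset.mem_insert, Finset.mem_singleton] at h7
    rcases h7 with h | h | h
    · exact h4 h
    · exact h5 h
    · exact h6 h
  have hsk0 : sm k0 = 0 := hex k0 hk0 hk0S hk03
  have hsk : sm k = 0 := hex k hk hkS h3
  have hk0sum : k0 y • y + k0 z • z + k0 w • w = 0 := by
    rw [← hsk0]
    have h5 : k0 = Finsupp.single y (k0 y) + Finsupp.single z (k0 z) + Finsupp.single w (k0 w) := by
      ext u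
      rw [Finsupp.add_apply, Finsupp.add_apply, Finsupp.single_apply, Finsupp.single_apply,
        Finsupp.single_apply]
      by_cases hu : y = u
      · subst hu
        rw [if_pos rfl, if_neg (Ne.symm hyz), if_neg hwy, add_zero, add_zero]
      · rw [if_neg hu, zero_add]
        by_cases hu' : z = u
        · subst hu'
          rw [if_pos rfl, if_neg hwz, add_zero]
        · rw [if_neg hu', zero_add]
          by_cases hu'' : w = u
          · subst hu''
            rw [if_pos rfl]
          · rw [if_neg hu'']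
            exact hk0out u (Ne.symm hu) (Ne.symm hu') (Ne.symm hu'')
    conv_rhs => rw [h5]
    rw [map_add, map_add, sm_single, sm_single, sm_single]
  have hwM : w ∉ M := by
    intro hwM
    apply hzM
    have h6 : k0 z • z ∈ M := by
      have h7 : k0 z • z = - (k0 y • y + k0 w • w) := by
        rw [eq_neg_iff_add_eq_zero, ← hk0sum]
        abel
      rw [h7]
      exact M.neg_mem (M.add_mem (M.smul_mem _ hyM) (M.smul_mem _ hwM))
    have h8 : z = (k0 z)⁻¹ • (k0 z • z) := by
      rw [smul_smul, inv_mul_cancel₀ hz, one_smul]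
    rw [h8]
    exact M.smul_mem _ h6
  -- `y` as a combination of exactly two elements
  obtain ⟨a, ha, hay⟩ := mem_spn.1 hyM
  obtain ⟨i, j, l, hi, hj, hl, hjl, t, hbi, hbj, hbl, hb⟩ := two_of (L := L) h3 a
    (fun u hu => by
      by_contra hne
      exact ha u hne hu)
    (fun t ht => by
      apply hyL
      rw [← hay, ht, map_smul, hsk, smul_zero]
      exact L.zero_mem) hk
  set b : V →₀ ℝ := a - t • k with hbdef
  have hsb : sm b = y := by
    rw [hbdef, map_sub, map_smul, hsk, smul_zero, sub_zero, hay]
  have hij : i ≠ j := by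
    rintro rfl
    exact hbj hbi
  have hil : i ≠ l := by
    rintro rfl
    exact hbl hbi
  have hjM : j ∈ M := subset_spn hj
  have hlM : l ∈ M := subset_spn hl
  set g : V →₀ ℝ := k0 - k0 y • Finsupp.single y 1 + k0 y • b with hg
  have hgM : ∀ u, u ∈ M → g u = k0 y * b u := by
    intro u hu
    have h4 : (k0 - k0 y • Finsupp.single y 1 : V →₀ ℝ) u = 0 := by
      rw [Finsupp.sub_apply, Finsupp.smul_apply, smul_eq_mul, Finsupp.single_apply]
      by_cases huy : y = u
      · subst huy
        rw [if_pos rfl, mul_one, sub_self]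
      · rw [if_neg huy, mul_zero, sub_zero]
        apply hk0out u (Ne.symm huy)
        · rintro rfl
          exact hzM hu
        · rintro rfl
          exact hwM hu
    rw [hg, Finsupp.add_apply, h4, zero_add, Finsupp.smul_apply, smul_eq_mul]
  have hgN : ∀ u, u ∉ M → g u = k0 u := by
    intro u hu
    have h4 : b u = 0 := hb u (by rintro rfl; exact hu hjM) (by rintro rfl; exact hu hlM)
    have h5 : y ≠ u := by
      rintro rfl
      exact hu hyM
    rw [hg, Finsupp.add_apply, Finsupp.sub_apply, Finsupp.smul_apply, Finsupp.smul_apply, h4,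
      Finsupp.single_apply, if_neg h5, smul_zero, sub_zero, add_zero]
  have hgz : g z = k0 z := hgN z hzM
  have hgw : g w = k0 w := hgN w hwM
  have hgout : ∀ u, u ≠ z → u ≠ w → u ≠ j → u ≠ l → g u = 0 := by
    intro u h4 h5 h6 h7
    by_cases hu : u ∈ M
    · rw [hgM u hu, hb u h6 h7, mul_zero]
    · rw [hgN u hu]
      apply hk0out u _ h4 h5
      rintro rfl
      exact hu hyM
  have hzj : z ≠ j := by
    rintro rfl
    exact hzM hjM
  have hzl : z ≠ l := by
    rintro rfl
    exact hzM hlM
  have hwj : w ≠ j := by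
    rintro rfl
    exact hwM hjM
  have hwl : w ≠ l := by
    rintro rfl
    exact hwM hlM
  have hgsupp : g.support = {z, w, j, l} := by
    ext u
    rw [Finsupp.mem_support_iff, Finset.mem_insert, Finset.mem_insert, Finset.mem_insert,
      Finset.mem_singleton]
    constructor
    · intro hu
      by_contra hno
      push Not at hno
      exact hu (hgout u hno.1 hno.2.1 hno.2.2.1 hno.2.2.2)
    · rintro (rfl | rfl | rfl | rfl)
      · rw [hgz]
        exact hz
      · rw [hgw]
        exact hw
      · rw [hgM _ hjM]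
        exact mul_ne_zero hy hbj
      · rw [hgM _ hlM]
        exact mul_ne_zero hy hbl
  have hg0 : sm g = 0 := by
    rw [hg, map_add, map_sub, map_smul, map_smul, hsk0, sm_single, one_smul, hsb]
    abel
  have hgc : Circ L g := by
    refine ⟨?_, by rw [hg0]; exact L.zero_mem, ?_⟩
    · intro h0
      rw [h0] at hgz
      exact hz hgz.symm
    · intro h hh hsub
      rw [supp_sub_iff] at hsub
      refine ⟨h w / k0 w, ?_⟩
      set d : V →₀ ℝ := h - (h w / k0 w) • g with hd
      have hdw : d w = 0 := by
        rw [hd, Finsupp.sub_apply, Finsupp.smul_apply, hgw, smul_eq_mul]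
        field_simp
        ring
      have hdout : ∀ u, u ≠ z → u ≠ j → u ≠ l → d u = 0 := by
        intro u h4 h5 h6
        by_cases huw : u = w
        · rw [huw]
          exact hdw
        · have h7 := hgout u h4 huw h5 h6
          rw [hd, Finsupp.sub_apply, Finsupp.smul_apply, h7, hsub u h7, smul_zero, sub_zero]
      have hdL : sm d ∈ L := by
        rw [hd, map_sub, map_smul, hg0, smul_zero, sub_zero]
        exact hh
      have hdz : d z = 0 := by
        by_contra hne
        apply hzML
        have h4 : sm (d - d z • Finsupp.single z 1) ∈ M := by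
          rw [hM, mem_spn]
          refine ⟨_, fun u hu => ?_, rfl⟩
          by_contra hku
          apply hu
          have hku' : k u = 0 := by
            by_contra h5
            exact hku h5
          rw [Finsupp.sub_apply, Finsupp.smul_apply, smul_eq_mul, Finsupp.single_apply]
          by_cases huz : z = u
          · subst huz
            rw [if_pos rfl, mul_one, sub_self]
          · rw [if_neg huz, mul_zero, sub_zero]
            apply hdout u (Ne.symm huz)
            · rintro rfl
              exact hj hku'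
            · rintro rfl
              exact hl hku'
        have h5 : d z • z = - sm (d - d z • Finsupp.single z 1) + sm d := by
          rw [map_sub, map_smul, sm_single, one_smul]
          abel
        have h6 : d z • z ∈ M ⊔ L := by
          rw [h5]
          exact Submodule.add_mem_sup (M.neg_mem h4) hdL
        have h8 : z = (d z)⁻¹ • (d z • z) := by
          rw [smul_smul, inv_mul_cancel₀ hne, one_smul]
        rw [h8]
        exact Submodule.smul_mem _ _ h6
      have hd0 : ∀ u, u ≠ j → u ≠ l → d u = 0 := by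
        intro u h5 h6
        by_cases huz : u = z
        · rw [huz]
          exact hdz
        · exact hdout u huz h5 h6
      obtain ⟨s, hs⟩ := hk.2.2 d hdL (supp_sub_iff.2 (fun u hu => by
          apply hd0
          · rintro rfl
            exact hj hu
          · rintro rfl
            exact hl hu))
      have hs0 : s = 0 := by
        have h1 := hd0 i hij hil
        rw [hs, Finsupp.smul_apply, smul_eq_mul] at h1
        rcases mul_eq_zero.1 h1 with h | h
        · exact h
        · exact absurd h hi
      have hdzero : d = 0 := by rw [hs, hs0, zero_smul]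
      exact sub_eq_zero.1 hdzero
  have hfin := hc3 g hgc (fun u hu => by
    have h1 := Finsupp.mem_support_iff.2 hu
    rw [hgsupp, Finset.mem_insert, Finset.mem_insert, Finset.mem_insert,
      Finset.mem_singleton] at h1
    rcases h1 with rfl | rfl | rfl | rfl
    · exact hk0S _ hz
    · exact hk0S _ hw
    · exact hkS _ hj
    · exact hkS _ hl)
  rw [hgsupp, Finset.card_insert_of_notMem, Finset.card_insert_of_notMem,
    Finset.card_pair hjl] at hfin
  · omega
  · rw [Finset.mem_insert, Finset.mem_singleton, not_or]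
    exact ⟨hwj, hwl⟩
  · rw [Finset.mem_insert, Finset.mem_insert, Finset.mem_singleton, not_or, not_or]
    exact ⟨Ne.symm hwz, hzj, hzl⟩

/-- No circuits of size three, from `lift`. -/
theorem no_three_of {S : Set V} {L T : Submodule ℝ V} {c : Fin 5 → V}
    (h : Quint S L c)
    (hlift : ∀ {κ : Type} [Fintype κ] (f : κ → V) (_ : ∀ k, f k ∈ Gs S) (α : κ → ℝ)
      (_ : ∀ k, α k ≠ 0) (_ : ∀ y : κ → ℝ, ∑ k, y k • f k ∈ L → ∃ t : ℝ, y = t • α)
      (x : Fin 5 → ℝ) (_ : ∑ k, α k • f k = ∑ i, x i • c i) (j : Fin 5),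
      Fintype.card κ ≤ (Finset.univ.filter (fun i => x i = x j)).card)
    (hspan : Submodule.span ℝ S = T)
    (hI : Indec ⊥ T S)
    (hc3 : ∀ k, Circ L k → (∀ y, k y ≠ 0 → y ∈ S) → k.support.card ≤ 3) :
    ∀ k, Circ L k → (∀ y, k y ≠ 0 → y ∈ S) → k.support.card ≤ 2 := by
  classical
  intro k hk hkS
  by_contra hlt
  have h3 : k.support.card = 3 := by
    have := hc3 k hk hkS
    omega
  have hex : ∀ k, Circ L k → (∀ y, k y ≠ 0 → y ∈ S) → k.support.card = 3 → sm k = 0 :=
    fun k hk hkS h3 => exact_three h hlift hk hkS h3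
  have hsk := hex k hk hkS h3
  set M : Submodule ℝ V := spn {y | k y ≠ 0} with hM
  have hML : ∀ x, x ∈ M → x ∈ L → x = 0 := by
    intro x hx hxL
    obtain ⟨a, ha, rfl⟩ := mem_spn.1 hx
    obtain ⟨t, ht⟩ := hk.2.2 a hxL (supp_sub_iff.2 (fun y hy => by
      by_contra hne
      exact ha y hne hy))
    rw [ht, map_smul, hsk, smul_zero]
  set W : Submodule ℝ V := L ⊔ spn {y | y ∈ S ∧ y ∉ M} with hW
  have hMS : M ≤ Submodule.span ℝ S := by
    rw [hM, spn_eq_span]
    exact Submodule.span_mono (fun y hy => hkS y hy)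
  have hLS : L ≤ Submodule.span ℝ S := by
    intro w hw
    obtain ⟨x, rfl⟩ := h.span w hw
    apply Submodule.sum_mem
    intro i _
    apply Submodule.smul_mem
    obtain ⟨f, hf, t, ht⟩ := h.mem i
    rw [ht]
    exact Submodule.smul_mem _ _ (Submodule.subset_span hf)
  have hWS : W ≤ Submodule.span ℝ S := by
    apply sup_le hLS
    rw [spn_eq_span]
    exact Submodule.span_mono (fun y hy => hy.1)
  have hor : ∀ f ∈ S, f ∈ M ∨ f ∈ W := by
    intro f hf
    by_cases hfM : f ∈ M
    · exact Or.inl hfM
    · exact Or.inr ((le_sup_right : spn {y | y ∈ S ∧ y ∉ M} ≤ W) (subset_spn ⟨hf, hfM⟩))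
  have hsup : M ⊔ W = T := by
    rw [← hspan]
    apply le_antisymm (sup_le hMS hWS)
    rw [Submodule.span_le]
    intro f hf
    rcases hor f hf with h1 | h1
    · exact (le_sup_left : M ≤ M ⊔ W) h1
    · exact (le_sup_right : W ≤ M ⊔ W) h1
  have hinf : M ⊓ W = ⊥ := by
    rw [eq_bot_iff]
    rintro x ⟨hx1, hx2⟩
    rw [Submodule.mem_bot]
    apply hML x hx1
    obtain ⟨a, ha, rfl⟩ := mem_spn.1 hx1
    obtain ⟨l, hl, w, hw, h1⟩ := Submodule.mem_sup.1 hx2
    obtain ⟨b, hb, rfl⟩ := mem_spn.1 hw
    have hab : sm (a - b) ∈ L := by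
      rw [map_sub, ← h1]
      have : l + sm b - sm b = l := by abel
      rw [this]
      exact hl
    have hf : (a - b).filter (fun y => y ∈ M) = a := by
      ext y
      rw [Finsupp.filter_apply]
      by_cases hAy : y ∈ M
      · rw [if_pos hAy, Finsupp.coe_sub, Pi.sub_apply]
        have : b y = 0 := by
          by_contra hne
          exact (hb y hne).2 hAy
        rw [this, sub_zero]
      · rw [if_neg hAy]
        by_contra hne
        exact hAy (subset_spn (ha y (fun h0 => hne h0.symm)))
    have hU := filter_dep L (fun y => y ∈ M) S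
      (fun k0 hk0 hk0S => in_or_out hc3 hex hk hkS h3 k0 hk0 hk0S) _ (a - b) rfl hab
      (fun y hy => by
        by_contra hyS
        apply hy
        rw [Finsupp.coe_sub, Pi.sub_apply]
        have e1 : a y = 0 := by
          by_contra hne
          exact hyS (hkS y (ha y hne))
        have e2 : b y = 0 := by
          by_contra hne
          exact hyS (hb y hne).1
        rw [e1, e2, sub_zero])
    rw [hf] at hU
    exact hU
  rcases hI M W hsup hinf hor with h1 | h1
  · obtain ⟨u, hu⟩ := Finsupp.ne_iff.1 hk.1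
    simp only [Finsupp.coe_zero, Pi.zero_apply] at hu
    have h4 : u ∈ M := subset_spn hu
    rw [h1, Submodule.mem_bot] at h4
    apply nonloop hk (by omega) hu
    rw [h4]
    exact L.zero_mem
  · have h4 : c 0 ∈ W := (le_sup_left : L ≤ W) (h.memL 0)
    rw [h1, Submodule.mem_bot] at h4
    have h5 := h.min (Pi.single 0 1) (by
      rw [Finset.sum_eq_single 0]
      · rw [h4, smul_zero]
      · intro j _ hj
        rw [Pi.single_eq_of_ne hj, zero_smul]
      · intro h'
        exact absurd (Finset.mem_univ _) h') 0 1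
    rw [Pi.single_eq_same, Pi.single_eq_of_ne (by decide)] at h5
    exact one_ne_zero h5

/-- B. No circuits of size three modulo `L`. -/
theorem no_three {S : Set V} (hmax : MaxC 5 S) {L T : Submodule ℝ V} {c : Fin 5 → V}
    (h : Quint S L c) (_hST : ∀ f ∈ S, f ∈ T) (hspan : Submodule.span ℝ S = T)
    (hI : Indec ⊥ T S)
    (hc3 : ∀ k, Circ L k → (∀ y, k y ≠ 0 → y ∈ S) → k.support.card ≤ 3) :
    ∀ k, Circ L k → (∀ y, k y ≠ 0 → y ∈ S) → k.support.card ≤ 2 :=
  no_three_of h (fun f hf α hα hmin x hx j =>
    Pool.Agent.Helper29.SF.lift hmax h f hf α hα hmin x hx j) hspan hI hc3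

end Pool.Agent.Helper75.SF
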